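import Pool.Agent.MP_cce4c9_lc.H7.BaseA

/-! Division of the class of the generic point by `l`, and its Galois cocycle. -/

set_option autoImplicit false

open WithZero Finsupp Module

namespace Pool.Agent.MP_cce4c9_lc.H3

open Pool.Agent.MP_cce4c9_lc.H87 Pool.Agent.MP_cce4c9_lc.H7

section FF

variable {k K : Type} [Field k] [IsAlgClosed k] [Field K] [Algebra k K]

theorem dv_ap' (hK : IsFF k K) (h : K) (v : Place k K) : dv k h v = v.ord h :=
  dv_apply (fins hK h) v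

omit [IsAlgClosed k] in
theorem mem_LL_iff {D : Dv k K} {h : K} (h0 : h ≠ 0) :
    h ∈ LL D ↔ ∀ v : Place k K, -D v ≤ v.ord h :=
  forall_congr' fun v => v.val_le_exp (v.val_ne h0) _

/-- Every divisor is equivalent, up to a multiple of a given place, to an effective divisor
whose Riemann-Roch space consists of the constants. -/
theorem normal_form (hLL : StmtLL) (hDEG : StmtDEG) (hGEN : StmtGEN) (hK : IsFF k K)
    (E : Dv k K) (R : Place k K) :
    ∃ (u : K) (n : ℤ), u ≠ 0 ∧ (∀ v, 0 ≤ (E + dv k u + single R n) v) ∧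
      ∀ ψ ∈ LL (E + dv k u + single R n), ψ ∈ Set.range (algebraMap k K) := by
  obtain ⟨hfin, hstep, -, -⟩ := hLL k K hK
  obtain ⟨-, hdeg⟩ := hDEG k K hK
  obtain ⟨⟨g, hg⟩, -⟩ := hGEN k K hK
  have hbdd : ∃ b : ℤ, ∀ n : ℤ, LL (E + single R n) ≠ ⊥ → b ≤ n := by
    refine ⟨-E.degree, fun n hn => ?_⟩
    obtain ⟨h, hh, h0⟩ := (Submodule.ne_bot_iff _).1 hn
    have h1 : 0 ≤ E + single R n + dv k h := fun v => by
      have := (mem_LL_iff h0).1 hh v
      rw [Finsupp.add_apply, dv_ap' hK]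
      simp only [Finsupp.coe_zero, Pi.zero_apply]
      omega
    have h2 : 0 ≤ (E + single R n + dv k h).degree := by
      rw [Finsupp.degree_apply]
      exact Finset.sum_nonneg fun v _ => h1 v
    rw [map_add, map_add, hdeg, Finsupp.degree_single] at h2
    omega
  have hex : ∃ n : ℤ, LL (E + single R n) ≠ ⊥ := by
    refine ⟨g - E.degree, fun h => ?_⟩
    have := hg.ge (E + single R (g - E.degree))
    rw [h, finrank_bot, map_add, Finsupp.degree_single] at this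
    omega
  obtain ⟨n, hn, hmin⟩ := Int.exists_least_of_bdd hbdd hex
  have hbot : LL (E + single R (n - 1)) = ⊥ := by
    by_contra h
    have := hmin _ h
    omega
  have hle : finrank k (LL (E + single R n)) ≤ 1 := by
    have := hstep (E + single R (n - 1)) R
    rwa [hbot, finrank_bot, add_assoc, ← single_add, sub_add_cancel, zero_add] at this
  obtain ⟨u, hu, hu0⟩ := (Submodule.ne_bot_iff _).1 hn
  refine ⟨u, n, hu0, fun v => ?_, fun ψ hψ => ?_⟩
  · have := (mem_LL_iff hu0).1 hu v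
    simp only [Finsupp.add_apply, dv_ap' hK] at this ⊢
    omega
  · by_cases h0 : ψ = 0
    · exact ⟨0, by simp [h0]⟩
    have h1 : ψ * u ∈ LL (E + single R n) := by
      rw [mem_LL_iff (mul_ne_zero h0 hu0)]
      intro v
      have := (mem_LL_iff h0).1 hψ v
      rw [v.ord_mul' h0 hu0]
      simp only [Finsupp.add_apply, dv_ap' hK] at this ⊢
      omega
    have := hfin (E + single R n)
    obtain ⟨w, hw⟩ := finrank_le_one_iff.1 hle
    obtain ⟨a, ha⟩ := hw ⟨u, hu⟩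
    obtain ⟨b, hb⟩ := hw ⟨_, h1⟩
    have ha' : algebraMap k K a * w = u := by
      rw [← Algebra.smul_def]; exact congrArg Subtype.val ha
    have hb' : algebraMap k K b * w = ψ * u := by
      rw [← Algebra.smul_def]; exact congrArg Subtype.val hb
    have ha0 : algebraMap k K a ≠ 0 := fun e => hu0 (by rw [← ha', e, zero_mul])
    have hw0 : (w : K) ≠ 0 := fun e => hu0 (by rw [← ha', e, mul_zero])
    refine ⟨b / a, ?_⟩
    rw [map_div₀, div_eq_iff ha0]
    apply mul_right_cancel₀ hw0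
    rw [hb', mul_assoc, ha']

end FF

section BC

variable {k K Ω : Type} [Field k] [Field K] [Algebra k K] [Field Ω] [Algebra k Ω]

theorem act_fix (B : BCK k K Ω) (τ : Ω ≃ₐ[k] Ω) (w : Place Ω B.F)
    (hw : ∀ (h : K) (a : Ω), w.val (algebraMap K B.F h - algebraMap Ω B.F a) < 1 → τ a = a) :
    B.act τ • w = w := by
  symm
  refine B.uniq _ _ fun h a ha => ?_
  have : algebraMap K B.F h - algebraMap Ω B.F a =
      (B.act τ).1 (algebraMap K B.F h - algebraMap Ω B.F a) := by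
    rw [map_sub, B.act_K, B.act_Ω, hw h a ha]
  rwa [this, smul_val_apply]

theorem act_io' [IsAlgClosed k] (hK : IsFF k K) (B : BCK k K Ω) (τ : Ω ≃ₐ[k] Ω)
    (z : Place k K) : B.act τ • B.io z = B.io z := by
  refine act_fix B τ _ fun h a ha => ?_
  have h1 : z.val h ≤ 1 := by rw [← B.io_val]; exact (B.io z).le_of_sub_lt ha
  obtain ⟨c, hc⟩ := res hK z h h1
  rw [← B.io_val, map_sub, ← IsScalarTower.algebraMap_apply,
    IsScalarTower.algebraMap_apply k Ω B.F] at hc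
  rw [(B.io z).const_eq ha hc, τ.commutes]

variable [Algebra K Ω] [IsScalarTower k K Ω]

theorem act_eta (B : BCK k K Ω) (τ : Ω ≃ₐ[K] Ω) :
    B.act (τ.restrictScalars k) • B.pl (eta k K Ω) = B.pl (eta k K Ω) := by
  refine act_fix B _ _ fun h a ha => ?_
  rw [(B.pl _).const_eq ha (B.pl_val _ h)]
  exact τ.commutes h

/-- Orbits of the Galois group on the base change are finite. -/
theorem orbit_finite [Algebra.IsAlgebraic K Ω] (B : BCK k K Ω) (x : B.F) :
    (Set.range fun τ : Ω ≃ₐ[K] Ω => (B.act (τ.restrictScalars k)).1 x).Finite := by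
  have hΩ : ∀ a : Ω, (Set.range fun τ : Ω ≃ₐ[K] Ω => τ a).Finite := fun a => by
    refine ((minpoly K a).rootSet_finite Ω).subset ?_
    rintro _ ⟨τ, rfl⟩
    have hi : IsIntegral K a := Algebra.IsIntegral.isIntegral a
    rw [Polynomial.mem_rootSet]
    exact ⟨minpoly.ne_zero hi, by rw [Polynomial.aeval_algHom_apply, minpoly.aeval, map_zero]⟩
  have hsp : ∀ a ∈ Submodule.span Ω (Set.range (algebraMap K B.F)),
      (Set.range fun τ : Ω ≃ₐ[K] Ω => (B.act (τ.restrictScalars k)).1 a).Finite := by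
    intro a ha
    induction ha using Submodule.span_induction with
    | mem x hx =>
      obtain ⟨h, rfl⟩ := hx
      refine (Set.finite_singleton (algebraMap K B.F h)).subset ?_
      rintro _ ⟨τ, rfl⟩
      exact B.act_K _ h
    | zero =>
      refine (Set.finite_singleton 0).subset ?_
      rintro _ ⟨τ, rfl⟩
      exact map_zero _
    | add x y _ _ hx hy =>
      refine (hx.image2 (· + ·) hy).subset ?_
      rintro _ ⟨τ, rfl⟩
      exact ⟨_, ⟨τ, rfl⟩, _, ⟨τ, rfl⟩, (map_add _ _ _).symm⟩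
    | smul c x _ hx =>
      refine ((hΩ c).image2 (fun a y => algebraMap Ω B.F a * y) hx).subset ?_
      rintro _ ⟨τ, rfl⟩
      refine ⟨_, ⟨τ, rfl⟩, _, ⟨τ, rfl⟩, ?_⟩
      simp only [Algebra.smul_def, map_mul, B.act_Ω]
      rfl
  obtain ⟨a, ha, b, hb, hb0, hx⟩ := B.gen x
  refine ((hsp a ha).image2 (· / ·) (hsp b hb)).subset ?_
  rintro _ ⟨τ, rfl⟩
  refine ⟨_, ⟨τ, rfl⟩, _, ⟨τ, rfl⟩, ?_⟩
  rw [eq_div_of_mul_eq hb0 hx]
  exact (map_div₀ _ _ _).symm

end BC

theorem coc (hLL : StmtLL) (hDEG : StmtDEG) (hGEN : StmtGEN) (hDIV : StmtDIV) (hRIG : StmtRIG) :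
    StmtCOC := by
  intro k K Ω _ _ _ _ _ _ _ _ _ _ B l hl x₀ hK hlk
  have hF := B.ff
  have hlΩ : (l : Ω) ≠ 0 := by
    rw [← map_natCast (algebraMap k Ω)]
    exact (map_ne_zero _).2 hlk
  have hl0 : (l : ℤ) ≠ 0 := Int.natCast_ne_zero.2 hl.out.ne_zero
  obtain ⟨E₀, Φ₀, hΦ₀, hd₀⟩ := hDIV Ω B.F l hF hlΩ
    (single (B.pl (eta k K Ω)) 1 - single (B.io x₀) 1) (by simp)
  obtain ⟨u, n, hu, hpos, hconst⟩ := normal_form hLL hDEG hGEN hF E₀ (B.io x₀)
  set E := E₀ + dv Ω u with hE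
  have hΦ₁ : Φ₀ * u ^ l ≠ 0 := mul_ne_zero hΦ₀ (pow_ne_zero _ hu)
  obtain ⟨z, hz⟩ : ∃ z : Place k K, (B.io z).ord (Φ₀ * u ^ l) = 0 := by
    have := (hLL k K hK).2.2.2
    obtain ⟨w, ⟨z, rfl⟩, hw⟩ :=
      (Set.infinite_range_of_injective B.io_inj).exists_notMem_finite (fins hF (Φ₀ * u ^ l))
    exact ⟨z, Function.notMem_support.1 hw⟩
  have hz1 : (B.io z).val (Φ₀ * u ^ l) = 1 := ((B.io z).val_one_iff ((B.io z).val_ne hΦ₁)).2 hz
  have hc0 := (res hF (B.io z)).ev_ne_zero hz1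
  have hc1 := (res hF (B.io z)).ev_spec hz1.le
  set c₀ := (B.io z).ev (Φ₀ * u ^ l)
  have hc2 : algebraMap Ω B.F c₀ ≠ 0 := (map_ne_zero _).2 hc0
  obtain ⟨Φ, hΦ⟩ : ∃ Φ : B.F, Φ = Φ₀ * u ^ l / algebraMap Ω B.F c₀ := ⟨_, rfl⟩
  have hΦ0 : Φ ≠ 0 := hΦ ▸ div_ne_zero hΦ₁ hc2
  have hnorm : (B.io z).val (Φ - 1) < 1 := by
    rw [hΦ, div_sub_one hc2, map_div₀, (B.io z).triv _ hc0, div_one]
    exact hc1
  have hdv : dv Ω Φ = single (B.pl (eta k K Ω)) 1 - single (B.io x₀) 1 + (l : ℤ) • E := by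
    ext v
    have := DFunLike.congr_fun hd₀ v
    rw [dv_ap' hF] at this
    rw [dv_ap' hF, hΦ, v.ord_div hΦ₁ hc2, v.ord_const, v.ord_mul' hΦ₀ (pow_ne_zero _ hu),
      v.ord_pow, this, hE]
    simp only [Finsupp.add_apply, Finsupp.smul_apply, smul_eq_mul, dv_ap' hF]
    ring
  have hord : ∀ (τ : Ω ≃ₐ[K] Ω) (w : Place Ω B.F),
      w.ord ((B.act (τ.restrictScalars k)).1 Φ) =
        w.ord Φ + l * (E ((B.act (τ.restrictScalars k))⁻¹ • w) - E w) := fun τ w => by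
    set θ := B.act (τ.restrictScalars k)
    have h1 := smul_ord_apply θ (θ⁻¹ • w) Φ
    rw [smul_inv_smul] at h1
    have h2 : actD θ (single (B.pl (eta k K Ω)) 1 - single (B.io x₀) 1) =
        single (B.pl (eta k K Ω)) 1 - single (B.io x₀) 1 := by
      rw [actD_sub, actD_single, actD_single, act_eta, act_io' hK]
    have h3 := DFunLike.congr_fun h2 w
    rw [actD_apply'] at h3
    rw [h1, ← dv_ap' hF, ← dv_ap' hF, hdv, Finsupp.add_apply, Finsupp.add_apply, h3]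
    simp only [Finsupp.smul_apply, smul_eq_mul]
    ring
  have hτ0 : ∀ τ : Ω ≃ₐ[K] Ω, (B.act (τ.restrictScalars k)).1 Φ ≠ 0 := fun τ =>
    (map_ne_zero _).2 hΦ0
  have hex : ∀ Φ' : B.F, ∃ a : VV k K l,
      (Φ' ∈ Set.range fun τ : Ω ≃ₐ[K] Ω => (B.act (τ.restrictScalars k)).1 Φ) →
        ∃ (f : Kˣ) (ψ : B.F), (a : Hl Kˣ l) = Hl.mk l f ∧
          Φ' = Φ * algebraMap K B.F f * ψ ^ l := by
    intro Φ'
    by_cases h : Φ' ∈ Set.range fun τ : Ω ≃ₐ[K] Ω => (B.act (τ.restrictScalars k)).1 Φ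
    · obtain ⟨τ, rfl⟩ := h
      obtain ⟨f, ψ, hf, -, hf1, hfψ⟩ := hRIG k K Ω B l hK hlk
        ((B.act (τ.restrictScalars k)).1 Φ / Φ) (div_ne_zero (hτ0 τ) hΦ0) fun w => by
          rw [w.ord_div (hτ0 τ) hΦ0, hord, add_sub_cancel_left]
          exact dvd_mul_right _ _
      refine ⟨⟨Hl.mk l (Units.mk0 f hf), Submodule.subset_span ⟨_, rfl, hf1⟩⟩,
        fun _ => ⟨Units.mk0 f hf, ψ, rfl, ?_⟩⟩
      rw [div_eq_iff hΦ0] at hfψ
      show (B.act (τ.restrictScalars k)).1 Φ = _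
      rw [hfψ, Units.val_mk0]
      ring
    · exact ⟨0, fun h' => absurd h' h⟩
  choose c hc using hex
  have hcoc : ∀ (τ : Ω ≃ₐ[K] Ω) (f : Kˣ),
      (c ((B.act (τ.restrictScalars k)).1 Φ) : Hl Kˣ l) = Hl.mk l f → ∃ ψ : B.F,
        (B.act (τ.restrictScalars k)).1 Φ = Φ * algebraMap K B.F f * ψ ^ l := fun τ f hf => by
    obtain ⟨f', ψ, h1, h2⟩ := hc _ ⟨τ, rfl⟩
    obtain ⟨y, hy⟩ := (Hl.mk_eq_mk l f' f).1 (h1.symm.trans hf)
    refine ⟨algebraMap K B.F y * ψ, h2.trans ?_⟩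
    rw [hy, Units.val_mul, Units.val_pow_eq_pow_val, map_mul, map_pow]
    ring
  refine ⟨⟨Φ, E, fun τ => c ((B.act (τ.restrictScalars k)).1 Φ), hΦ0, hdv,
    fun τ f D hf => hcoc τ f hf.1, fun τ hτ => ?_, ?_⟩⟩
  · obtain ⟨ψ, hψ⟩ := hcoc τ 1 (by rw [hτ]; rfl)
    rw [Units.val_one, map_one, mul_one] at hψ
    have hψ0 : ψ ≠ 0 := fun e => hτ0 τ (by rw [hψ, e, zero_pow hl.out.ne_zero, mul_zero])
    set θ := B.act (τ.restrictScalars k) with hθ
    obtain ⟨a, rfl⟩ := hconst ψ (by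
      rw [mem_LL_iff hψ0]
      intro w
      have h1 := hord τ w
      rw [← hθ, hψ, w.ord_mul' hΦ0 (pow_ne_zero _ hψ0), w.ord_pow, add_right_inj] at h1
      have h2 := mul_left_cancel₀ hl0 h1
      have h3 := hpos (θ⁻¹ • w)
      have h4 : actD θ (single (B.io x₀) n) w = single (B.io x₀) n w := by
        rw [actD_single, act_io' hK]
      rw [actD_apply'] at h4
      rw [Finsupp.add_apply] at h3 ⊢
      omega)
    have h1 : (B.io z).val (θ.1 Φ - algebraMap Ω B.F 1) < 1 := by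
      have := smul_val_apply θ (B.io z) (Φ - 1)
      rw [act_io' hK, map_sub, map_one] at this
      rwa [map_one, this]
    have h2 : (B.io z).val (θ.1 Φ - algebraMap Ω B.F (a ^ l)) < 1 := by
      rw [hψ, map_pow, show Φ * algebraMap Ω B.F a ^ l - algebraMap Ω B.F a ^ l =
        (Φ - 1) * algebraMap Ω B.F (a ^ l) by rw [map_pow]; ring, map_mul]
      exact mul_lt_one_of_lt_of_le hnorm ((B.io z).const_le _)
    rw [hψ, ← map_pow, (B.io z).const_eq h2 h1, map_one, mul_one]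
  · refine ((orbit_finite B Φ).image c).subset ?_
    rintro _ ⟨τ, rfl⟩
    exact ⟨_, ⟨τ, rfl⟩, rfl⟩

end Pool.Agent.MP_cce4c9_lc.H3
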